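import Pool.Agent.N893.TB.Stm

/-!
Project TB (helper893), part COMBB: switches of the class modulo four (helper300).
-/

set_option autoImplicit false

namespace Pool.Agent.N300.TB

open Pool.Agent.N893.TB Finset

theorem core (Z : ℕ → Prop) [DecidablePred Z] (T : ℕ → ℝ) (u n : ℕ → ℕ)
    (hT : ∀ k, T k = if Z k then 1 else 0)
    (hu0 : u 0 = 0) (hu : ∀ k, u (k + 1) = if Z k then k % 2 else u k)
    (hn1 : ∀ k, Z k → n k = k) (hn2 : ∀ k, ¬ Z k → n k = n (k + 1)) (K : ℕ) :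
    (u K = 0 ∨ u K = 1) ∧
    hh T K + 1 / 2 = (if K % 2 = u K then 0 else 1) ∧
    2 * (∑ k ∈ range K, if Z k ∧ k % 2 = 0 ∧ n (k + 1) % 2 = 1 then (1 : ℝ) else 0)
      = ∑ k ∈ range K, T k * (hh T k + 1 / 2) + u K + 2 * (if u K = 0 ∧ n K % 2 = 1 then 1 else 0)
        - 2 * (if n 0 % 2 = 1 then 1 else 0) ∧
    2 * (∑ k ∈ range K, if Z k ∧ k % 2 = 1 ∧ n (k + 1) % 2 = 0 then (1 : ℝ) else 0)
      = ∑ k ∈ range K, T k * (hh T k + 1 / 2) - u K + 2 * (if u K = 1 ∧ n K % 2 = 0 then 1 else 0) := by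
  induction K with
  | zero => simp [hu0, hh]
  | succ K ih =>
    obtain ⟨ih0, ih1, ih2, ih3⟩ := ih
    have hL : hh T (K + 1) + 1 / 2 = 1 - (hh T K + 1 / 2) + T K * (hh T K + 1 / 2) := by
      rw [hh]
      ring
    by_cases hZ : Z K
    · have e1 : T K = 1 := by rw [hT, if_pos hZ]
      have e2 : u (K + 1) = K % 2 := by rw [hu, if_pos hZ]
      have e3 : n K = K := hn1 K hZ
      refine ⟨?_, ?_, ?_, ?_⟩
      · rw [e2]
        omega
      · rw [hL, e1, e2, ih1]
        rcases Nat.mod_two_eq_zero_or_one K with h | h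
        · have h' : (K + 1) % 2 = 1 := by omega
          rw [h, h']
          rcases ih0 with h0 | h0 <;> simp [h0]
        · have h' : (K + 1) % 2 = 0 := by omega
          rw [h, h']
          rcases ih0 with h0 | h0 <;> simp [h0]
      · rw [sum_range_succ, sum_range_succ, mul_add, ih2, ih1, e1, e2, e3]
        rcases Nat.mod_two_eq_zero_or_one K with h | h <;>
        rcases Nat.mod_two_eq_zero_or_one (n (K + 1)) with h' | h' <;>
        rcases ih0 with h0 | h0 <;>
        simp [h, h', h0, hZ] <;> ring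
      · rw [sum_range_succ, sum_range_succ, mul_add, ih3, ih1, e1, e2, e3]
        rcases Nat.mod_two_eq_zero_or_one K with h | h <;>
        rcases Nat.mod_two_eq_zero_or_one (n (K + 1)) with h' | h' <;>
        rcases ih0 with h0 | h0 <;>
        simp [h, h', h0, hZ] <;> ring
    · have e1 : T K = 0 := by rw [hT, if_neg hZ]
      have e2 : u (K + 1) = u K := by rw [hu, if_neg hZ]
      have e3 : n K = n (K + 1) := hn2 K hZ
      refine ⟨?_, ?_, ?_, ?_⟩
      · rw [e2]
        exact ih0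
      · rw [hL, e1, e2, ih1]
        rcases Nat.mod_two_eq_zero_or_one K with h | h
        · have h' : (K + 1) % 2 = 1 := by omega
          rw [h, h']
          rcases ih0 with h0 | h0 <;> simp [h0]
        · have h' : (K + 1) % 2 = 0 := by omega
          rw [h, h']
          rcases ih0 with h0 | h0 <;> simp [h0]
      · rw [sum_range_succ, sum_range_succ, mul_add, ih2, e1, e2, e3]
        simp [hZ]
      · rw [sum_range_succ, sum_range_succ, mul_add, ih3, e1, e2, e3]
        simp [hZ]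

theorem first_iff {S : Set ℕ} (hS : ∀ n ∈ S, n.Coprime 6) {p : ℕ} (hp : First S p) :
    ∃ k, p = 6 * k + 5 := by
  have h1 := hS p hp.1
  have h2 := hS (p + 2) hp.2
  have h6 : ∀ m : ℕ, m.Coprime 6 → m % 2 = 1 ∧ m % 3 ≠ 0 := by
    intro m hm
    constructor
    · by_contra h
      have hd : 2 ∣ Nat.gcd m 6 := Nat.dvd_gcd (by omega) (by norm_num)
      rw [Nat.Coprime] at hm
      rw [hm] at hd
      omega
    · intro h
      have hd : 3 ∣ Nat.gcd m 6 := Nat.dvd_gcd (by omega) (by norm_num)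
      rw [Nat.Coprime] at hm
      rw [hm] at hd
      omega
  obtain ⟨a1, a2⟩ := h6 _ h1
  obtain ⟨b1, b2⟩ := h6 _ h2
  have h3 : p % 3 = 2 := by omega
  have h4 : p % 6 = 5 := by omega
  exact ⟨p / 6, by omega⟩

open Classical in
theorem card_eq {S : Set ℕ} (hS : ∀ n ∈ S, n.Coprime 6) (n : ℕ → ℕ)
    (hnZ : ∀ k, First S (6 * n k + 5)) (hnk : ∀ k, k ≤ n k)
    (hnm : ∀ k m, k ≤ m → m < n k → ¬ First S (6 * m + 5)) (x a b : ℕ) :
    (pi2next S x a b : ℝ) = ∑ j ∈ range ((x + 1) / 6),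
      if First S (6 * j + 5) ∧ (6 * j + 5) % 4 = a ∧ (6 * n (j + 1) + 5) % 4 = b then (1 : ℝ) else 0 := by
  have hnext : ∀ j, First S (6 * j + 5) → ((∃ p', Next S (6 * j + 5) p' ∧ p' % 4 = b) ↔
      (6 * n (j + 1) + 5) % 4 = b) := by
    intro j hj
    constructor
    · rintro ⟨p', ⟨hlt, hF, hno⟩, hb⟩
      obtain ⟨k, rfl⟩ := first_iff hS hF
      have h1 : n (j + 1) = k := by
        rcases lt_trichotomy (n (j + 1)) k with h | h | h
        · exact absurd (hnZ (j + 1)) (hno _ (by have := hnk (j + 1); omega) (by omega))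
        · exact h
        · exact absurd hF (hnm (j + 1) k (by omega) h)
      rw [h1]
      exact hb
    · intro hb
      refine ⟨6 * n (j + 1) + 5, ⟨by have := hnk (j + 1); omega, hnZ _, ?_⟩, hb⟩
      intro m hm1 hm2 hF
      obtain ⟨k, rfl⟩ := first_iff hS hF
      exact hnm (j + 1) k (by omega) (by omega) hF
  rw [Finset.sum_boole, Nat.cast_inj]
  unfold pi2next
  have himg : ((range (x + 1)).filter fun p => First S p ∧ p % 4 = a ∧ ∃ p', Next S p p' ∧ p' % 4 = b) =
      ((range ((x + 1) / 6)).filter fun j => First S (6 * j + 5) ∧ (6 * j + 5) % 4 = a ∧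
        (6 * n (j + 1) + 5) % 4 = b).image (fun j => 6 * j + 5) := by
    ext p
    simp only [mem_filter, mem_range, mem_image]
    constructor
    · rintro ⟨hp, hF, ha, hN⟩
      obtain ⟨k, rfl⟩ := first_iff hS hF
      exact ⟨k, ⟨by omega, hF, ha, (hnext k hF).1 hN⟩, rfl⟩
    · rintro ⟨k, ⟨hk, hF, ha, hN⟩, rfl⟩
      exact ⟨by omega, hF, ha, (hnext k hF).2 hN⟩
  rw [himg]
  exact Finset.card_image_of_injective _ (fun i j h => by simpa using h)

theorem main : tCOMBB := by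
  classical
  intro S hS hinf x
  have hex : ∀ k : ℕ, ∃ m, k ≤ m ∧ First S (6 * m + 5) := by
    intro k
    obtain ⟨p, hp, hlt⟩ := hinf.exists_gt (6 * k + 5)
    obtain ⟨m, rfl⟩ := first_iff hS hp
    exact ⟨m, by omega, hp⟩
  obtain ⟨n, hn⟩ : ∃ n : ℕ → ℕ, ∀ k, n k = Nat.find (hex k) := ⟨_, fun _ => rfl⟩
  have hnZ : ∀ k, First S (6 * n k + 5) := fun k => by rw [hn]; exact (Nat.find_spec (hex k)).2
  have hnk : ∀ k, k ≤ n k := fun k => by rw [hn]; exact (Nat.find_spec (hex k)).1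
  have hnm : ∀ k m, k ≤ m → m < n k → ¬ First S (6 * m + 5) := by
    intro k m hkm hm hF
    rw [hn] at hm
    exact Nat.find_min (hex k) hm ⟨hkm, hF⟩
  have hn1 : ∀ k, First S (6 * k + 5) → n k = k := by
    intro k hk
    rcases lt_or_eq_of_le (hnk k) with h | h
    · exact absurd hk (hnm k k le_rfl h)
    · exact h.symm
  have hn2 : ∀ k, ¬ First S (6 * k + 5) → n k = n (k + 1) := by
    intro k hk
    have h1 : k + 1 ≤ n k := by
      rcases lt_or_eq_of_le (hnk k) with h | h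
      · exact h
      · exact absurd (h ▸ hnZ k) hk
    rcases lt_trichotomy (n k) (n (k + 1)) with h | h | h
    · exact absurd (hnZ k) (hnm (k + 1) _ h1 h)
    · exact h
    · exact absurd (hnZ (k + 1)) (hnm k _ ((Nat.le_succ k).trans (hnk (k + 1))) h)
  obtain ⟨u, hu0, hu⟩ : ∃ u : ℕ → ℕ, u 0 = 0 ∧ ∀ k, u (k + 1) = if First S (6 * k + 5) then k % 2 else u k :=
    ⟨fun k => Nat.rec 0 (fun k v => if First S (6 * k + 5) then k % 2 else v) k, rfl, fun k => rfl⟩
  obtain ⟨c0, -, c2, c3⟩ := core (fun k => First S (6 * k + 5)) (TT S) u n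
    (fun k => by unfold TT; rfl) hu0 hu hn1 hn2 ((x + 1) / 6)
  have hu1 : (0 : ℝ) ≤ u ((x + 1) / 6) ∧ (u ((x + 1) / 6) : ℝ) ≤ 1 := by
    rcases c0 with h | h <;> simp [h]
  have E1 : (pi2next S x 1 3 : ℝ) = ∑ k ∈ range ((x + 1) / 6),
      if First S (6 * k + 5) ∧ k % 2 = 0 ∧ n (k + 1) % 2 = 1 then (1 : ℝ) else 0 := by
    rw [card_eq hS n hnZ hnk hnm]
    apply Finset.sum_congr rfl
    intro k _
    congr 1
    apply propext
    constructor
    · rintro ⟨h1, h2, h3⟩
      exact ⟨h1, by omega, by omega⟩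
    · rintro ⟨h1, h2, h3⟩
      exact ⟨h1, by omega, by omega⟩
  have E2 : (pi2next S x 3 1 : ℝ) = ∑ k ∈ range ((x + 1) / 6),
      if First S (6 * k + 5) ∧ k % 2 = 1 ∧ n (k + 1) % 2 = 0 then (1 : ℝ) else 0 := by
    rw [card_eq hS n hnZ hnk hnm]
    apply Finset.sum_congr rfl
    intro k _
    congr 1
    apply propext
    constructor
    · rintro ⟨h1, h2, h3⟩
      exact ⟨h1, by omega, by omega⟩
    · rintro ⟨h1, h2, h3⟩
      exact ⟨h1, by omega, by omega⟩
  rw [← E1] at c2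
  rw [← E2] at c3
  have i1 : ∀ (q : Prop) [Decidable q], (0 : ℝ) ≤ (if q then 1 else 0) ∧ (if q then (1 : ℝ) else 0) ≤ 1 := by
    intro q _
    split_ifs <;> norm_num
  have j1 := i1 (u ((x + 1) / 6) = 0 ∧ n ((x + 1) / 6) % 2 = 1)
  have j2 := i1 (n 0 % 2 = 1)
  have j3 := i1 (u ((x + 1) / 6) = 1 ∧ n ((x + 1) / 6) % 2 = 0)
  constructor
  · rw [abs_le]
    constructor <;> linarith [j1.1, j1.2, j2.1, j2.2, hu1.1, hu1.2]
  · rw [abs_le]
    constructor <;> linarith [j3.1, j3.2, hu1.1, hu1.2]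

end Pool.Agent.N300.TB
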